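import Mathlib
import Pool.Agent.Helper42.Th.Defs

/-!
Integer potentials on the vertices and on the faces of a graph: along a level of the vertices,
the labels of the faces rise from every edge to the next one.
-/

set_option autoImplicit false

namespace Pool.Agent.Helper51.TW

open Pool.Agent.Helper42.Th

variable {E : Type} {Γ : CMap E}

/-- Summation by parts: functions of the vertices and of the faces. -/
lemma stokes [Fintype E] (ψ φ : E → ℤ) (hψ : ∀ d, ψ (Γ.rot d) = ψ d)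
    (hφ : ∀ d, φ (Γ.flip (Γ.rot d)) = φ d) : ∑ d, φ d * (ψ (Γ.flip d) - ψ d) = 0 := by
  have h1 : ∑ d, φ d * ψ (Γ.flip d) = ∑ d, φ d * ψ d := by
    rw [← Equiv.sum_comp (Γ.rot.trans Γ.flip) fun d => φ d * ψ (Γ.flip d)]
    refine Finset.sum_congr rfl fun d _ => ?_
    change φ (Γ.flip (Γ.rot d)) * ψ (Γ.flip (Γ.flip (Γ.rot d))) = φ d * ψ d
    rw [hφ, Γ.flip_flip, hψ]
  simp only [mul_sub, Finset.sum_sub_distrib, h1, sub_self]

/-- The dart `d` crosses the level `j` upwards. -/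
def Up (Γ : CMap E) (Y : E → ℤ) (j : ℤ) (d : E) : Prop := Y d ≤ j ∧ j < Y (Γ.flip d)

/-- In a set of faces, the darts which cross a level upwards are as many as those which cross it
downwards. -/
lemma card_up [Finite E] (Y : E → ℤ) (hY : ∀ d, Y (Γ.rot d) = Y d) (j : ℤ) (W : Set E)
    (hW : ∀ d, Γ.flip (Γ.rot d) ∈ W ↔ d ∈ W) :
    {d | d ∈ W ∧ Up Γ Y j d}.ncard = {d | d ∈ W ∧ Up Γ Y j (Γ.flip d)}.ncard := by
  classical
  have := Fintype.ofFinite E
  have h := stokes (Γ := Γ) (fun d => if j < Y d then (1 : ℤ) else 0)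
    (fun d => if d ∈ W then (1 : ℤ) else 0) (fun d => by rw [hY]) (fun d => by simp only [hW])
  have h1 : ∀ d : E, (if d ∈ W then (1 : ℤ) else 0) *
      ((if j < Y (Γ.flip d) then (1 : ℤ) else 0) - if j < Y d then 1 else 0) =
      (if d ∈ W ∧ Up Γ Y j d then (1 : ℤ) else 0) -
        if d ∈ W ∧ Up Γ Y j (Γ.flip d) then 1 else 0 := by
    intro d
    unfold Up
    rw [Γ.flip_flip]
    by_cases h1 : d ∈ W <;> by_cases h2 : j < Y d <;> by_cases h3 : j < Y (Γ.flip d) <;>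
      simp [h1, h2, h3, not_le.mpr, not_lt.mp]
  simp only [h1, Finset.sum_sub_distrib, Finset.sum_boole] at h
  rw [Set.ncard_eq_toFinset_card', Set.ncard_eq_toFinset_card']
  have h2 := sub_eq_zero.mp h
  rw [Nat.cast_inj] at h2
  simpa using h2

/-- Along the level `j`, the labels of the faces rise from one edge to the next one: `e` ends
at the position `α` and `e'` starts there, and there are only walls between them. -/
theorem row_le [Finite E] {Ω : Type*} [LinearOrder Ω] (Y A : E → ℤ)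
    (hY : ∀ d, Y (Γ.rot d) = Y d) (hA : ∀ d, A (Γ.flip (Γ.rot d)) = A d) (j : ℤ) (g : E → Ω)
    (hg : ∀ d, g (Γ.flip (Γ.rot d)) = g d)
    (wall : ∀ d, Up Γ Y j d → A (Γ.flip d) = A d → g d ≤ g (Γ.flip d)) {e e' : E}
    (he : Up Γ Y j e) (hne : A e ≠ A (Γ.flip e)) (hα : A (Γ.flip e) = A e')
    (uniq : ∀ d, Up Γ Y j d → A d = A e' → A (Γ.flip d) ≠ A d → d = e') :
    g (Γ.flip e) ≤ g e' := by
  by_contra hn
  set W : Set E := {d | A d = A e' ∧ g (Γ.flip e) ≤ g d} with hW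
  have hWf : ∀ d, Γ.flip (Γ.rot d) ∈ W ↔ d ∈ W := fun d => by
    simp only [hW, Set.mem_ofPred_eq, hA, hg]
  have h1 := card_up (Γ := Γ) Y hY j W hWf
  have h2 : ({d | d ∈ W ∧ Up Γ Y j d}).ncard <
      ({d | d ∈ W ∧ Up Γ Y j (Γ.flip d)}).ncard := by
    have hsub : Γ.flip '' {d | d ∈ W ∧ Up Γ Y j d} ⊂ {d | d ∈ W ∧ Up Γ Y j (Γ.flip d)} := by
      have hw : ∀ d, d ∈ W → Up Γ Y j d → A (Γ.flip d) = A d := by
        intro d hd hu
        by_contra h3
        have h4 := uniq d hu hd.1 h3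
        rw [h4] at hd
        exact hn hd.2
      refine ⟨?_, fun h3 => ?_⟩
      · rintro _ ⟨d, ⟨hd, hu⟩, rfl⟩
        have h3 := hw d hd hu
        refine ⟨⟨h3.trans hd.1, hd.2.trans (wall d hu h3)⟩, ?_⟩
        rw [Γ.flip_flip]
        exact hu
      · obtain ⟨d, ⟨hd, hu⟩, h4⟩ := h3 (show Γ.flip e ∈ _ from
          ⟨⟨hα, le_rfl⟩, by rw [Γ.flip_flip]; exact he⟩)
        have h5 : d = e := Γ.flip.injective h4
        subst h5
        exact hne (hw d hd hu).symm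
    have h3 := Set.ncard_lt_ncard hsub (Set.toFinite _)
    rwa [Set.ncard_image_of_injective _ Γ.flip.injective] at h3
  exact h2.ne h1

/-- A wall along which the labels rise: there is an edge to the right of it. -/
theorem exists_snk [Finite E] {Ω : Type*} [LinearOrder Ω] (Y A : E → ℤ)
    (hY : ∀ d, Y (Γ.rot d) = Y d) (hA : ∀ d, A (Γ.flip (Γ.rot d)) = A d) (j : ℤ) (g : E → Ω)
    (hg : ∀ d, g (Γ.flip (Γ.rot d)) = g d)
    (wall : ∀ d, Up Γ Y j d → A (Γ.flip d) = A d → g d ≤ g (Γ.flip d)) {w : E}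
    (hw : Up Γ Y j w) (hA' : A (Γ.flip w) = A w) (hlt : g w < g (Γ.flip w)) :
    ∃ e, Up Γ Y j e ∧ A e = A w ∧ A (Γ.flip e) ≠ A e ∧ g (Γ.flip w) ≤ g e := by
  by_contra hn
  push Not at hn
  set W : Set E := {d | A d = A w ∧ g (Γ.flip w) ≤ g d} with hW
  have hWf : ∀ d, Γ.flip (Γ.rot d) ∈ W ↔ d ∈ W := fun d => by
    simp only [hW, Set.mem_ofPred_eq, hA, hg]
  have h1 := card_up (Γ := Γ) Y hY j W hWf
  have hsub : Γ.flip '' {d | d ∈ W ∧ Up Γ Y j d} ⊂ {d | d ∈ W ∧ Up Γ Y j (Γ.flip d)} := by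
    refine ⟨?_, fun h3 => ?_⟩
    · rintro _ ⟨d, ⟨hd, hu⟩, rfl⟩
      have h3 : A (Γ.flip d) = A d := by
        by_contra h3
        exact absurd hd.2 (not_le.mpr (hn d hu hd.1 h3))
      refine ⟨⟨h3.trans hd.1, hd.2.trans (wall d hu h3)⟩, ?_⟩
      rw [Γ.flip_flip]
      exact hu
    · obtain ⟨d, ⟨hd, hu⟩, h4⟩ := h3 (show Γ.flip w ∈ _ from
        ⟨⟨hA', le_rfl⟩, by rw [Γ.flip_flip]; exact hw⟩)
      have h5 : d = w := Γ.flip.injective h4
      subst h5
      exact absurd hd.2 (not_le.mpr hlt)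
  have h3 := Set.ncard_lt_ncard hsub (Set.toFinite _)
  rw [Set.ncard_image_of_injective _ Γ.flip.injective] at h3
  exact h3.ne h1

/-- A wall along which the labels rise: there is an edge to the left of it. -/
theorem exists_src [Finite E] {Ω : Type*} [LinearOrder Ω] (Y A : E → ℤ)
    (hY : ∀ d, Y (Γ.rot d) = Y d) (hA : ∀ d, A (Γ.flip (Γ.rot d)) = A d) (j : ℤ) (g : E → Ω)
    (hg : ∀ d, g (Γ.flip (Γ.rot d)) = g d)
    (wall : ∀ d, Up Γ Y j d → A (Γ.flip d) = A d → g d ≤ g (Γ.flip d)) {w : E}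
    (hw : Up Γ Y j w) (hlt : g w < g (Γ.flip w)) :
    ∃ e, Up Γ Y j e ∧ A (Γ.flip e) = A w ∧ A (Γ.flip e) ≠ A e ∧ g (Γ.flip e) ≤ g w := by
  by_contra hn
  push Not at hn
  set W : Set E := {d | A d = A w ∧ g d ≤ g w} with hW
  have hWf : ∀ d, Γ.flip (Γ.rot d) ∈ W ↔ d ∈ W := fun d => by
    simp only [hW, Set.mem_ofPred_eq, hA, hg]
  have h1 := card_up (Γ := Γ) Y hY j W hWf
  have hsub : Γ.flip '' {d | d ∈ W ∧ Up Γ Y j (Γ.flip d)} ⊂ {d | d ∈ W ∧ Up Γ Y j d} := by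
    refine ⟨?_, fun h3 => ?_⟩
    · rintro _ ⟨d, ⟨hd, hu⟩, rfl⟩
      have h3 : A (Γ.flip d) = A d := by
        by_contra h3
        have h4 := hn (Γ.flip d) hu (by rw [Γ.flip_flip]; exact hd.1)
          (by rw [Γ.flip_flip]; exact fun h4 => h3 h4.symm)
        rw [Γ.flip_flip] at h4
        exact absurd hd.2 (not_le.mpr h4)
      have h4 := wall (Γ.flip d) hu (by rw [Γ.flip_flip]; exact h3.symm)
      rw [Γ.flip_flip] at h4
      exact ⟨⟨h3.trans hd.1, h4.trans hd.2⟩, hu⟩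
    · obtain ⟨d, ⟨hd, hu⟩, h4⟩ := h3 (show w ∈ _ from ⟨⟨rfl, le_rfl⟩, hw⟩)
      rw [← h4, Γ.flip_flip] at hlt
      exact absurd hd.2 (not_le.mpr (by rwa [← h4]))
  have h3 := Set.ncard_lt_ncard hsub (Set.toFinite _)
  rw [Set.ncard_image_of_injective _ Γ.flip.injective] at h3
  exact h3.ne h1.symm

end Pool.Agent.Helper51.TW
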