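import Mathlib
import Pool.Agent.Helper31.T3.Setup
import Pool.Agent.Helper42.Th.Path
import Pool.Agent.Helper51.TW.Rows
import Pool.Agent.Helper61.TL.Defs

/-!
The inequalities for the labels of the vertices and of the faces of a graph with one negative
edge, in the form which the tilings need.
-/

set_option autoImplicit false

namespace Pool.Agent.Helper51.TW

open Pool.Agent.Helper42.Th Pool.Agent.Helper31.T3 Pool.Agent.Helper31.CUT
open Pool.Agent.Helper61.TL (Near)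

section

variable {E : Type} {Ω : Type*} [LinearOrder Ω] {Γ : CMap E} {δ : E} {X Y : E → Ω ≃o Ω}
  {a b : Ω ≃o Ω} {k : ℕ} {z₀ : Ω}

/-- The inequality for an edge which counts as `ℓ` squares above each other, at all points of the
region where `a` moves up. -/
def Dom (Γ : CMap E) (X Y : E → Ω ≃o Ω) (a : Ω ≃o Ω) (d : E) (ℓ : ℕ) : Prop :=
  ∀ z, z ≤ a z → X d z ≤ X (Γ.flip d) ((Sys.N Γ Y d ^ ℓ) z)

/-- An edge of slope `1 / ℓ`. -/
lemma dom_of_exact {Ω : Type*} [CompleteLinearOrder Ω] {a : Ω ≃o Ω} {G : Type*} [Group G]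
    {L : Lab G Γ} {ρ : G →* (Ω ≃o Ω)} {d : E} {ℓ : ℕ} (h : L.M d ^ ℓ = L.D d) :
    Dom Γ (lx L ρ) (ly L ρ) a d ℓ := by
  intro z _
  rw [← map_M, ← map_pow, h, X_D]

variable [Finite E]

/-- A dart which touches `δ` descends. -/
lemma touch_desc (S : Sys Γ δ X Y a b k) {d : E} (h1 : d ≠ δ) (h2 : d ≠ Γ.flip δ)
    (h : Near Γ δ d) {z : Ω} (hz : z ≤ a z) : X (Γ.flip d) z ≤ X d z := by
  obtain ⟨h3, h4⟩ := Harm.ne_flip (Γ := Γ) h1 h2
  rcases h with h | h | h | h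
  · rw [same_eq (f := fun d => X d z) (S.harm z).f_rot h]
    exact (S.ext hz _).2.1
  · rw [same_eq (f := fun d => X d z) (S.harm z).f_rot h]
    exact (S.ext hz _).1
  · have h5 := X_of_Y S h3 h4 (z := z) (by
      rw [Γ.flip_flip, same_eq (Γ := Γ.dual) (f := fun d => Y d z) (S.harm z).g_rot h]
      exact (S.ext hz _).2.2.1)
    rwa [Γ.flip_flip] at h5
  · have h5 := X_of_Y S h3 h4 (z := z) (by
      rw [Γ.flip_flip, same_eq (Γ := Γ.dual) (f := fun d => Y d z) (S.harm z).g_rot h]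
      exact (S.ext hz _).2.2.2)
    rwa [Γ.flip_flip] at h5

/-- A dart which touches `δ` has a nonnegative flow. -/
lemma touch_flow (S : Sys Γ δ X Y a b k) {d : E} (h1 : d ≠ δ) (h2 : d ≠ Γ.flip δ)
    (h : Near Γ δ d) {z : Ω} (hz : z ≤ a z) : Y (Γ.flip d) z ≤ Y d z :=
  (S.harm z).pos d h1 h2 (touch_desc S h1 h2 h hz)

/-- A dart of slope at least `1 / ℓ` which touches `δ`. -/
lemma dom_of_touch (S : Sys Γ δ X Y a b k) {d : E} {ℓ : ℕ} (h1 : d ≠ δ) (h2 : d ≠ Γ.flip δ)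
    (h : Near Γ δ d) (hs : Slope Γ X Y d ℓ) : Dom Γ X Y a d ℓ := fun z hz =>
  hs z (touch_desc S h1 h2 h hz)

variable (S : Sys Γ δ X Y a b k) (h0 : z₀ < a z₀)

lemma hgt_congr {d e : E} (h : ∀ z, X d z = X e z) : hgt S h0 d = hgt S h0 e :=
  RelIso.ext fun z =>
    le_antisymm ((hgt_le S h0 d e z z).mpr (h _).le) ((hgt_le S h0 e d z z).mpr (h _).ge)

lemma fac_congr {d e : E} (h : ∀ z, Y d z = Y e z) : fac S h0 d = fac S h0 e :=
  RelIso.ext fun z =>
    le_antisymm ((fac_le S h0 d e z z).mpr (h _).le) ((fac_le S h0 e d z z).mpr (h _).ge)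

lemma hgt_rot (d : E) : hgt S h0 (Γ.rot d) = hgt S h0 d :=
  hgt_congr S h0 fun z => (S.harm z).f_rot d

lemma fac_rot (d : E) : fac S h0 (Γ.flip (Γ.rot d)) = fac S h0 d :=
  fac_congr S h0 fun z => (S.harm z).g_rot d

lemma hgt_same {d e : E} (h : Γ.rot.SameCycle d e) : hgt S h0 e = hgt S h0 d :=
  hgt_congr S h0 fun z => same_eq (f := fun d => X d z) (S.harm z).f_rot h

lemma hgt_start : hgt S h0 δ = aJ h0 :=
  RelIso.ext fun z => Subtype.ext ((X (Γ.flip δ)).injective (by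
    rw [hgt_eq]
    exact (S.ha z.1).symm))

lemma hgt_end : hgt S h0 (Γ.flip δ) = 1 :=
  RelIso.ext fun z => Subtype.ext ((X (Γ.flip δ)).injective (by
    rw [hgt_eq]
    rfl))

lemma fac_flip : fac S h0 (Γ.flip δ) = bJ S h0 :=
  RelIso.ext fun z => Subtype.ext ((Y δ).injective (by
    rw [fac_eq]
    exact (S.hb z.1).symm))

lemma fac_self : fac S h0 δ = 1 :=
  RelIso.ext fun z => Subtype.ext ((Y δ).injective (by
    rw [fac_eq]
    rfl))

omit [Finite E] in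
lemma aJ_comm : aJ h0 * bJ S h0 = bJ S h0 * aJ h0 :=
  RelIso.ext fun z => Subtype.ext (S.comm z.1)

omit [Finite E] in
lemma aJ_inv_comm (z : {z // Reg a z₀ z}) :
    (aJ h0)⁻¹ ((bJ S h0)⁻¹ z) = (bJ S h0)⁻¹ ((aJ h0)⁻¹ z) := by
  have h : (aJ h0)⁻¹ * (bJ S h0)⁻¹ = (bJ S h0)⁻¹ * (aJ h0)⁻¹ := by
    rw [← mul_inv_rev, ← mul_inv_rev, aJ_comm]
  exact congrArg (fun f : {z // Reg a z₀ z} ≃o {z // Reg a z₀ z} => f z) h

/-- The labels of the faces are between those of the sides of `δ`. -/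
lemma fac_inv_le (d : E) (z : {z // Reg a z₀ z}) : (fac S h0 d)⁻¹ z ≤ z := by
  rw [← (fac S h0 d).le_iff_le, RelIso.apply_inv_self]
  have h1 : fac S h0 δ z ≤ fac S h0 d z :=
    (fac_le S h0 _ _ _ _).mpr (S.ext (reg_lt h0 z.2).le d).2.2.1
  rwa [fac_self] at h1

lemma le_fac_inv (d : E) (z : {z // Reg a z₀ z}) : (bJ S h0)⁻¹ z ≤ (fac S h0 d)⁻¹ z := by
  set w := (fac S h0 d)⁻¹ z with hw
  have hw' : fac S h0 d w = z := by rw [hw, RelIso.apply_inv_self]
  rw [← (bJ S h0).le_iff_le, RelIso.apply_inv_self, ← hw', ← fac_flip]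
  exact (fac_le S h0 _ _ _ _).mpr (S.ext (reg_lt h0 w.2).le d).2.2.2

/-- The inequality for a wall which touches `δ`. -/
lemma wall_le {d : E} (h1 : d ≠ δ) (h2 : d ≠ Γ.flip δ) (h : Near Γ δ d)
    (z : {z // Reg a z₀ z}) : (fac S h0 d)⁻¹ z ≤ (fac S h0 (Γ.flip d))⁻¹ z := by
  set w := (fac S h0 (Γ.flip d))⁻¹ z with hw
  have hw' : fac S h0 (Γ.flip d) w = z := by rw [hw, RelIso.apply_inv_self]
  rw [← (fac S h0 d).le_iff_le, RelIso.apply_inv_self, ← hw', fac_le]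
  exact touch_flow S h1 h2 h (reg_lt h0 w.2).le

/-- The flow of an edge. -/
def NJ (d : E) : {z // Reg a z₀ z} ≃o {z // Reg a z₀ z} := (fac S h0 (Γ.flip d))⁻¹ * fac S h0 d

lemma NJ_pow (d : E) (p : ℕ) (z : {z // Reg a z₀ z}) :
    ((NJ S h0 d ^ p) z).1 = (Sys.N Γ Y d ^ p) z.1 := by
  induction p generalizing z with
  | zero => rfl
  | succ p ih =>
    rw [pow_succ, pow_succ, RelIso.mul_apply, RelIso.mul_apply, ih, NJ, N_eq S h0]

/-- The label of the horizontal line between the squares `p - 1` and `p` of the edge `d`, which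
counts as `ℓ` squares above each other. -/
def mid (d : E) (ℓ p : ℕ) : {z // Reg a z₀ z} ≃o {z // Reg a z₀ z} :=
  if p < ℓ then (hgt S h0 (Γ.flip d) * NJ S h0 d ^ p)⁻¹ else (hgt S h0 d)⁻¹

lemma mid_zero (d : E) {ℓ : ℕ} (hℓ : 0 < ℓ) : mid S h0 d ℓ 0 = (hgt S h0 (Γ.flip d))⁻¹ := by
  rw [mid, if_pos hℓ, pow_zero, mul_one]

lemma mid_top (d : E) (ℓ : ℕ) : mid S h0 d ℓ ℓ = (hgt S h0 d)⁻¹ := by
  rw [mid, if_neg (lt_irrefl ℓ)]

lemma inv_apply_le {f g : {z // Reg a z₀ z} ≃o {z // Reg a z₀ z}} {z w : {z // Reg a z₀ z}} :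
    f⁻¹ z ≤ g⁻¹ w ↔ z ≤ f (g⁻¹ w) := by
  rw [← f.le_iff_le, RelIso.apply_inv_self]

/-- The inequality for the squares of an edge. -/
theorem mid_le {d : E} {ℓ p : ℕ} (h : Dom Γ X Y a d ℓ) (hp : p < ℓ)
    {x y : {z // Reg a z₀ z}} (hxy : (fac S h0 (Γ.flip d))⁻¹ y ≤ mid S h0 d ℓ p x) :
    (fac S h0 d)⁻¹ y ≤ mid S h0 d ℓ (p + 1) x := by
  -- the square with the label of the chain
  have h1 : (fac S h0 d)⁻¹ y ≤ (hgt S h0 (Γ.flip d) * NJ S h0 d ^ (p + 1))⁻¹ x := by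
    rw [mid, if_pos hp] at hxy
    have h2 : (hgt S h0 (Γ.flip d) * NJ S h0 d ^ (p + 1))⁻¹ =
        (NJ S h0 d)⁻¹ * (hgt S h0 (Γ.flip d) * NJ S h0 d ^ p)⁻¹ := by
      rw [pow_succ]
      group
    have h3 : (fac S h0 d)⁻¹ = (NJ S h0 d)⁻¹ * (fac S h0 (Γ.flip d))⁻¹ := by
      rw [NJ]
      group
    rw [h2, h3, RelIso.mul_apply, RelIso.mul_apply]
    exact (NJ S h0 d)⁻¹.monotone hxy
  rcases Nat.lt_or_ge (p + 1) ℓ with h2 | h2
  · rwa [mid, if_pos h2]
  · obtain rfl : ℓ = p + 1 := by omega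
    rw [mid_top]
    refine h1.trans ?_
    set w := (hgt S h0 d)⁻¹ x with hw
    have hw' : hgt S h0 d w = x := by rw [hw, RelIso.apply_inv_self]
    rw [← (hgt S h0 (Γ.flip d) * NJ S h0 d ^ (p + 1)).le_iff_le, RelIso.apply_inv_self, ← hw',
      RelIso.mul_apply, hgt_le, NJ_pow]
    exact h w.1 (reg_lt h0 w.2).le

/-- The labels of the faces between two edges which cross the level `j` one after the other:
`d` is on the left side of `d'`, and there are only walls between them. -/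
theorem row_inv (H A : E → ℕ) (hH : ∀ d, H (Γ.rot d) = H d)
    (hA : ∀ d, A (Γ.flip (Γ.rot d)) = A d) (hδ : A (Γ.flip δ) ≠ A δ)
    (wall : ∀ d, d ≠ δ → d ≠ Γ.flip δ → A (Γ.flip d) = A d → H (Γ.flip d) < H d →
      Near Γ δ d) (j : ℕ) {d d' : E} (hd : H (Γ.flip d) ≤ j) (hd2 : j < H d)
    (hne : A (Γ.flip d) ≠ A d) (h : A d = A (Γ.flip d'))
    (uniq : ∀ e, H (Γ.flip e) ≤ j → j < H e → A (Γ.flip e) = A (Γ.flip d') →
      A e ≠ A (Γ.flip e) → e = d') (z : {z // Reg a z₀ z}) :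
    (fac S h0 (Γ.flip d'))⁻¹ z ≤ (fac S h0 d)⁻¹ z := by
  have key := row_le (Γ := Γ) (fun e => (H e : ℤ)) (fun e => (A e : ℤ))
    (fun e => by simp only [hH]) (fun e => by simp only [hA]) (j : ℤ)
    (fun e => OrderDual.toDual ((fac S h0 e)⁻¹ z)) (fun e => by simp only [fac_rot])
    (fun w hw he => by
      obtain ⟨h1, h2⟩ := hw
      simp only at h1 h2 he
      have h3 : H w < H (Γ.flip w) := by omega
      have h4 : A (Γ.flip w) = A w := by exact_mod_cast he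
      have h5 : Γ.flip w ≠ δ := fun h6 => hδ (by rw [← h6, Γ.flip_flip, h4])
      have h6 : Γ.flip w ≠ Γ.flip δ := fun h6 => hδ (by
        have h7 : w = δ := Γ.flip.injective h6
        rw [h7] at h4
        exact h4)
      have h7 := wall_le S h0 h5 h6 (wall _ h5 h6 (by rw [Γ.flip_flip, h4]) (by
        rw [Γ.flip_flip]
        exact h3)) z
      rw [Γ.flip_flip] at h7
      exact h7)
    (e := Γ.flip d) (e' := Γ.flip d')
    ⟨by simp only [Nat.cast_le]; exact hd, by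
      rw [Γ.flip_flip]
      simp only [Nat.cast_lt]
      exact hd2⟩ (by
      rw [Γ.flip_flip]
      exact_mod_cast hne) (by
      rw [Γ.flip_flip]
      simp only [Nat.cast_inj]
      exact h)
    (fun w hw h1 h2 => by
      obtain ⟨h3, h4⟩ := hw
      simp only [Nat.cast_le, Nat.cast_lt, Nat.cast_inj, ne_eq] at h1 h2 h3 h4
      have h5 := uniq (Γ.flip w) (by rw [Γ.flip_flip]; exact h3) h4
        (by rw [Γ.flip_flip]; exact h1) (by rw [Γ.flip_flip]; exact h2)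
      rw [← h5, Γ.flip_flip])
  rw [Γ.flip_flip] at key
  exact key

end

end Pool.Agent.Helper51.TW
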