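import Mathlib
import Pool.Agent.Helper74.TW.Sq
import Pool.Agent.Helper51.TW.Ends
import Pool.Agent.Helper31.T3.Final

/-!
From a diagram with one negative edge, the other edges of which dissect a rectangle, to the
dissection of the rectangle into squares with automorphisms of an interval of a linear order.
-/

set_option autoImplicit false

namespace Pool.Agent.Helper51.TW

open Pool.Agent.Helper42.Th Pool.Agent.Helper31.T3 Pool.Agent.Helper61.TL
open Pool.Agent.Helper74.TW (IsTile len Sqs tile_len tile_unique exists_tiling_of)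

/-- The dissection which belongs to the region of `z₀`. -/
theorem exists_tiling {E : Type} [Finite E] {G : Type*} [Group G] {Γ : CMap E} {L : Lab G Γ}
    {δ : E} {Ω : Type*} [CompleteLinearOrder Ω] {ρ : G →* (Ω ≃o Ω)} {a b : Ω ≃o Ω} {κ : ℕ}
    {z₀ : Ω} (S : Sys Γ δ (lx L ρ) (ly L ρ) a b κ) (h0 : z₀ < a z₀) {h k : ℕ} (hh : 0 < h)
    (hk : 0 < k) {H A : E → ℕ} (T : Tiles L δ h k H A) :
    ∃ U : Tiling {z // Reg a z₀ z} h k (aJ h0)⁻¹ (bJ S h0)⁻¹ (Sqs Γ δ H A),
      ∑ e, U.sz e = total Γ δ H A ∧ ∀ e, U.al e = A (Γ.flip e.1.1) ∧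
        U.yt e = H (Γ.flip e.1.1) + e.2 * (A e.1.1 - A (Γ.flip e.1.1)) ∧
        U.sz e = A e.1.1 - A (Γ.flip e.1.1) ∧ U.lt e = (fac S h0 (Γ.flip e.1.1))⁻¹ ∧
        U.rt e = (fac S h0 e.1.1)⁻¹ ∧ U.lo e = mid S h0 e.1.1 (len Γ H A e.1.1) e.2 ∧
        U.up e = mid S h0 e.1.1 (len Γ H A e.1.1) (e.2 + 1) := by
  refine exists_tiling_of hh T (fun d => (hgt S h0 d)⁻¹) (fun d => (fac S h0 d)⁻¹)
    (fun d p => mid S h0 d (len Γ H A d) p) (fun d => ?_) (fun z => ?_) (fun z => ?_)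
    (fun d hd => ?_) (fun d _ => mid_top S h0 d _) (fun d _ _ z => fac_inv_le S h0 _ z)
    (fun d _ _ z => le_fac_inv S h0 d z) ?_ ?_
  · simp only [hgt_rot]
  · change (hgt S h0 (Γ.flip δ))⁻¹ z = z
    rw [hgt_end, inv_one]
    rfl
  · change (hgt S h0 δ)⁻¹ z = (aJ h0)⁻¹ z
    rw [hgt_start]
  · exact mid_zero S h0 d (tile_len T hd).1
  · intro d e j hd he hd1 hd2 he1 he2 hde z
    refine row_inv S h0 H A T.H_rot T.A_rot ?_ T.wall j hd1 hd2 hd.2.2.ne hde ?_ z
    · rw [T.A_hi, T.A_lo]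
      exact hk.ne'
    · intro w hw1 hw2 hw3 hw4
      have hE : A (Γ.flip e) < A e := he.2.2
      have hwδ : w ≠ δ := by
        rintro rfl
        rw [T.A_hi] at hw3
        have := T.A_le e
        omega
      have hwδ' : w ≠ Γ.flip δ := by
        rintro rfl
        rw [Γ.flip_flip, T.H_hi] at hw1
        rw [T.H_lo] at hw2
        omega
      have hw5 : A (Γ.flip w) < A w := by
        by_contra hn
        have h5 : A w < A (Γ.flip w) := by omega
        have h6 : Γ.flip w ≠ δ := fun h7 => hwδ' (by rw [← h7, Γ.flip_flip])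
        have h7 : Γ.flip w ≠ Γ.flip δ := fun h7 => hwδ (Γ.flip.injective h7)
        obtain ⟨l, h8, h9, -⟩ := T.tile (Γ.flip w) h6 h7 (by rw [Γ.flip_flip]; exact h5)
        rw [Γ.flip_flip] at h9
        omega
      exact tile_unique T (i := A (Γ.flip e)) (j := j) ⟨hwδ, hwδ', hw5⟩ (by omega) (by omega)
        hw1 hw2 he le_rfl hE he1 he2
  · intro d p x y hd hp hxy
    refine mid_le S h0 ?_ hp hxy
    rcases (tile_len T hd).2.2 with h1 | ⟨h1, h2⟩
    · exact dom_of_exact h1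
    · exact dom_of_touch S hd.1 hd.2.1 h1 (slope_of_within ρ h2)

end Pool.Agent.Helper51.TW
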