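import Mathlib
import Pool.Agent.Helper31.T3.Arc
import Pool.Agent.Helper51.TW.Rows
import Pool.Agent.Helper74.TW.Fmt
import Pool.Agent.Helper89.TL.Defs
import Pool.Agent.Helper89.TL.Rect

/-!
From a diagram which dissects a rectangle, with labels of the vertices and of the faces, to the
dissection of the rectangle.
-/

set_option autoImplicit false

namespace Pool.Agent.Helper51.TW

open Pool.Agent.Helper42.Th Pool.Agent.Helper89.TL
open Pool.Agent.Helper74.TW (Pot)

section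

variable {E : Type} {Γ : CMap E} {δ : E} {h k : ℕ} {Y A : E → ℤ} {T : Finset E}

/-- The potentials of a dissection. -/
def pot (hT : Dissection Γ δ h k Y A T) : Pot Γ δ h k where
  Y := Y
  A := A
  Y_rot := hT.Y_rot
  A_rot := hT.A_rot
  Y_u := hT.Y_lo
  Y_v := hT.Y_hi
  A_R := hT.A_hi
  A_L := hT.A_lo
  edge d _ h2 h3 := hT.tile d ((hT.mem d).mpr ⟨h2, h3⟩)

lemma ne_start (hT : Dissection Γ δ h k Y A T) {d : E} (hd : A d < A (Γ.flip d)) : d ≠ δ := by
  rintro rfl
  rw [hT.A_hi, hT.A_lo] at hd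
  have := hT.k_pos
  omega

/-- The rectangle of a dart. -/
def toT (hT : Dissection Γ δ h k Y A T) (d : {d // d ∈ T}) : (pot hT).T :=
  ⟨d.1, ne_start hT ((hT.mem d.1).mp d.2).2, ((hT.mem d.1).mp d.2).1, ((hT.mem d.1).mp d.2).2⟩

/-- The darts which cross a level upwards. -/
lemma mem_of_up (hT : Dissection Γ δ h k Y A T) {j : ℤ} (hj : 0 ≤ j) (hj' : j < h) {d : E}
    (hd : Up Γ Y j d) (hne : A (Γ.flip d) ≠ A d) : d = δ ∨ d ∈ T := by
  have h1 : d ≠ Γ.flip δ := by
    rintro rfl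
    have := hd.1
    rw [hT.Y_hi] at this
    omega
  by_contra hn
  push Not at hn
  rcases lt_or_gt_of_ne hne with h2 | h2
  · have h3 : Γ.flip d ∈ T := (hT.mem _).mpr ⟨fun h4 => hn.1 (Γ.flip.injective h4), by
      rw [Γ.flip_flip]
      exact h2⟩
    have h4 := hT.tile _ h3
    rw [Γ.flip_flip] at h4
    have := hd.1
    have := hd.2
    omega
  · exact hn.2 ((hT.mem _).mpr ⟨h1, h2⟩)

lemma start_up (hT : Dissection Γ δ h k Y A T) {j : ℤ} (hj : 0 ≤ j) (hj' : j < h) :
    Up Γ Y j δ := ⟨by rw [hT.Y_lo]; exact hj, by rw [hT.Y_hi]; exact hj'⟩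

variable [Finite E]

lemma bounds (hT : Dissection Γ δ h k Y A T) {d : E} (hd : d ∈ T) :
    0 ≤ A d ∧ A d < A (Γ.flip d) ∧ A (Γ.flip d) ≤ k ∧ 0 ≤ Y d ∧ Y d < Y (Γ.flip d) ∧
      Y (Γ.flip d) ≤ h := (pot hT).bounds (toT hT ⟨d, hd⟩)

lemma unique (hT : Dissection Γ δ h k Y A T) {i j : ℤ} {d e : E} (hd : d ∈ T) (he : e ∈ T)
    (d1 : A d ≤ i) (d2 : i < A (Γ.flip d)) (d3 : Up Γ Y j d) (e1 : A e ≤ i)
    (e2 : i < A (Γ.flip e)) (e3 : Up Γ Y j e) : d = e := by
  have h1 := ((hT.mem d).mp hd)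
  have h2 := ((hT.mem e).mp he)
  have c1 : (pot hT).Cov d i j := ⟨ne_start hT h1.2, h1.1, d1, d2, d3.1, d3.2⟩
  have c2 : (pot hT).Cov e i j := ⟨ne_start hT h2.2, h2.1, e1, e2, e3.1, e3.2⟩
  exact c1.unique (Pot.ne' Γ δ) (by omega) (by omega) c2

variable {X : Type*} [LinearOrder X]

/-- The rule for the rows. -/
lemma next_le (hT : Dissection Γ δ h k Y A T) {W : E → X ≃o X}
    (W_rot : ∀ d, W (Γ.flip (Γ.rot d)) = W d)
    (wall : ∀ d, A d = A (Γ.flip d) → Y d < Y (Γ.flip d) → ∀ z, W d z ≤ W (Γ.flip d) z) {j : ℤ}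
    (hj : 0 ≤ j) (hj' : j < h) {d e : E} (hd : d = δ ∨ d ∈ T) (he : e = δ ∨ e ∈ T)
    (d1 : Up Γ Y j d) (e1 : Up Γ Y j e) (hde : A (Γ.flip d) = A e) (z : X) :
    W (Γ.flip d) z ≤ W e z := by
  have hk := hT.k_pos
  refine row_le (Γ := Γ) Y A hT.Y_rot hT.A_rot j (fun d => W d z)
    (fun d => by simp only [W_rot]) (fun d hu ha => wall d ha.symm (hu.1.trans_lt hu.2) z)
    d1 ?_ hde ?_
  · rcases hd with rfl | hd
    · rw [hT.A_hi, hT.A_lo]
      omega
    · exact ((hT.mem d).mp hd).2.ne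
  · intro w hw h1 h2
    rcases mem_of_up hT hj hj' hw h2 with rfl | h3
    · rcases he with rfl | he
      · rfl
      · have h4 := bounds hT he
        rw [hT.A_hi] at h1
        omega
    · have h4 := bounds hT h3
      rcases he with rfl | he
      · rw [hT.A_hi] at h1
        omega
      · have h5 := bounds hT he
        exact unique hT h3 he (i := A e) (by omega) (by omega) hw le_rfl (by omega) e1

/-- The dissection of the rectangle. -/
theorem exists_rtiling (hT : Dissection Γ δ h k Y A T) (V W : E → X ≃o X)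
    (V_rot : ∀ d, V (Γ.rot d) = V d) (W_rot : ∀ d, W (Γ.flip (Γ.rot d)) = W d) (τ M : X ≃o X)
    (V_u : V δ = 1) (V_v : V (Γ.flip δ) = τ) (W_L : W (Γ.flip δ) = 1) (W_R : W δ = M)
    (comm : ∀ d, Commute (V (Γ.flip d) * (V d)⁻¹) (W (Γ.flip d) * (W d)⁻¹))
    (tile : ∀ d ∈ T, ∀ z, ((V (Γ.flip d) * (V d)⁻¹) ^ (A (Γ.flip d) - A d)) z ≤
      ((W (Γ.flip d) * (W d)⁻¹) ^ (Y (Γ.flip d) - Y d)) z)
    (wall : ∀ d, A d = A (Γ.flip d) → Y d < Y (Γ.flip d) → ∀ z, W d z ≤ W (Γ.flip d) z) :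
    ∃ U : RTiling X h k τ M {d // d ∈ T},
      (∑ e, (U.wd e + U.ht e - Nat.gcd (U.wd e) (U.ht e)) : ℤ) = total Γ Y A T ∧
      -- if all the inequalities of U are equalities, all walls carry equalities
      ((∀ e, U.al e = 0 → ∀ z, U.lt e z = z) →
       (∀ e, U.al e + U.wd e = k → ∀ z, U.rt e z = M z) →
       (∀ e e' j, In (U.yt e) (U.ht e) j → In (U.yt e') (U.ht e') j →
         U.al e + U.wd e = U.al e' → ∀ z, U.rt e z = U.lt e' z) →
       ∀ d, A d = A (Γ.flip d) → ∀ j : ℕ, j < h → Y d ≤ j → j < Y (Γ.flip d) →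
         ∀ z, W d z = W (Γ.flip d) z) := by
  have hh := hT.h_pos
  have hk := hT.k_pos
  have e1 := fun e : {d // d ∈ T} => (pot hT).al_eq (toT hT e)
  have e2 := fun e : {d // d ∈ T} => (pot hT).ar_eq (toT hT e)
  have e3 := fun e : {d // d ∈ T} => (pot hT).yt_eq (toT hT e)
  have e4 := fun e : {d // d ∈ T} => (pot hT).yh_eq (toT hT e)
  have l1 := fun e : {d // d ∈ T} => (pot hT).al_lt (toT hT e)
  have l2 := fun e : {d // d ∈ T} => (pot hT).ar_le (toT hT e)
  have l3 := fun e : {d // d ∈ T} => (pot hT).yt_lt (toT hT e)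
  have l4 := fun e : {d // d ∈ T} => (pot hT).yh_le (toT hT e)
  set al := fun e : {d // d ∈ T} => (pot hT).al (toT hT e) with hal
  set ar := fun e : {d // d ∈ T} => (pot hT).ar (toT hT e) with har
  set yt := fun e : {d // d ∈ T} => (pot hT).yt (toT hT e) with hyt
  set yh := fun e : {d // d ∈ T} => (pot hT).yh (toT hT e) with hyh
  change ∀ e, (al e : ℤ) = A e.1 at e1
  change ∀ e, (ar e : ℤ) = A (Γ.flip e.1) at e2
  change ∀ e, (yt e : ℤ) = Y e.1 at e3
  change ∀ e, (yh e : ℤ) = Y (Γ.flip e.1) at e4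
  change ∀ e, al e < ar e at l1
  change ∀ e, ar e ≤ k at l2
  change ∀ e, yt e < yh e at l3
  change ∀ e, yh e ≤ h at l4
  have up : ∀ e : {d // d ∈ T}, ∀ j : ℕ, In (yt e) (yh e - yt e) j → Up Γ Y j e.1 := by
    intro e j hj
    obtain ⟨hj1, hj2⟩ := hj
    have h1 := e3 e
    have h2 := e4 e
    have h3 := l3 e
    constructor <;> omega
  have V_same : ∀ d e, Γ.rot.SameCycle d e → V e = V d := fun d e hs =>
    Pool.Agent.Helper31.T3.same_eq V_rot hs
  have ew : ∀ e : {d // d ∈ T}, ((ar e - al e : ℕ) : ℤ) = A (Γ.flip e.1) - A e.1 := by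
    intro e
    have h1 := e1 e
    have h2 := e2 e
    have h3 := l1 e
    omega
  have eh : ∀ e : {d // d ∈ T}, ((yh e - yt e : ℕ) : ℤ) = Y (Γ.flip e.1) - Y e.1 := by
    intro e
    have h1 := e3 e
    have h2 := e4 e
    have h3 := l3 e
    omega
  refine ⟨{
    al := al
    yt := yt
    wd := fun e => ar e - al e
    ht := fun e => yh e - yt e
    wd_pos := fun e => Nat.sub_pos_of_lt (l1 e)
    ht_pos := fun e => Nat.sub_pos_of_lt (l3 e)
    colb := fun e => by
      have := l1 e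
      have := l2 e
      omega
    rowb := fun e => by
      have := l3 e
      have := l4 e
      omega
    cover := ?_
    disj := ?_
    lo := fun e => V e.1
    up := fun e => V (Γ.flip e.1)
    lt := fun e => W e.1
    rt := fun e => W (Γ.flip e.1)
    bot := ?_
    top := ?_
    vert := ?_
    left := ?_
    right := ?_
    horz := ?_
    comm := fun e => comm e.1
    slope := ?_ }, ?_, ?_⟩
  · intro i hi j hj
    obtain ⟨d, ⟨⟨d1, d2⟩, d3, d4⟩, -⟩ := (pot hT).part i hi j hj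
    have hd : d.1 ∈ T := (hT.mem d.1).mpr ⟨d.2.2.1, d.2.2.2⟩
    have hd' : toT hT ⟨d.1, hd⟩ = d := rfl
    refine ⟨⟨d.1, hd⟩, ⟨d1, ?_⟩, d3, ?_⟩
    · change i < (pot hT).al d + ((pot hT).ar d - (pot hT).al d)
      omega
    · change j < (pot hT).yt d + ((pot hT).yh d - (pot hT).yt d)
      omega
  · intro e e' i j hi hj hi' hj'
    have h1 := e1 e
    have h2 := e2 e
    have h3 := e1 e'
    have h4 := e2 e'
    obtain ⟨hi1, hi2⟩ := hi
    obtain ⟨hi3, hi4⟩ := hi'
    exact Subtype.ext (unique hT e.2 e'.2 (i := i) (by omega) (by omega) (up e j hj) (by omega)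
      (by omega) (up e' j hj'))
  · intro e he
    change V e.1 = 1
    exact (V_same _ _ ((pot hT).bot (toT hT e) he)).symm.trans V_u
  · intro e he
    change V (Γ.flip e.1) = τ
    have h2 := l3 e
    exact (V_same _ _ ((pot hT).top (toT hT e) (by
      change yh e = h
      omega))).symm.trans V_v
  · intro e e' i hi hi' he
    change V (Γ.flip e.1) = V e'.1
    have h2 := l3 e
    have h3 := l1 e
    have h4 := l1 e'
    obtain ⟨hi1, hi2⟩ := hi
    obtain ⟨hi3, hi4⟩ := hi'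
    exact (V_same _ _ ((pot hT).col (toT hT e) (toT hT e') i hi1 (by
      change i < ar e
      omega) hi3 (by
      change i < ar e'
      omega) (by
      change yt e' = yh e
      omega))).symm
  · intro e he z
    change z ≤ W e.1 z
    have h1 := e1 e
    have h2 := e3 e
    have h3 := l3 e
    have h4 := l4 e
    have h5 := next_le hT W_rot wall (j := yt e) (by omega) (by omega) (Or.inl rfl)
      (Or.inr e.2) (start_up hT (by omega) (by omega)) (up e (yt e) ⟨le_rfl, by omega⟩) (by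
        rw [hT.A_lo]
        omega) z
    rw [W_L] at h5
    exact h5
  · intro e he z
    change W (Γ.flip e.1) z ≤ M z
    have h1 := e2 e
    have h2 := e3 e
    have h3 := l3 e
    have h4 := l4 e
    have h6 := l1 e
    have h5 := next_le hT W_rot wall (j := yt e) (by omega) (by omega) (Or.inr e.2)
      (Or.inl rfl) (up e (yt e) ⟨le_rfl, by omega⟩) (start_up hT (by omega) (by omega)) (by
        rw [hT.A_hi]
        omega) z
    rw [W_R] at h5
    exact h5
  · intro e e' j hj hj' he z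
    change W (Γ.flip e.1) z ≤ W e'.1 z
    have h1 := e2 e
    have h2 := e1 e'
    have h6 := l1 e
    have h3 := l4 e
    have h4 : j < h := by
      have := hj.2
      have := l3 e
      omega
    exact next_le hT W_rot wall (j := j) (by omega) (by omega) (Or.inr e.2) (Or.inr e'.2)
      (up e j hj) (up e' j hj') (by omega) z
  · intro e z
    change ((V (Γ.flip e.1) * (V e.1)⁻¹) ^ (ar e - al e)) z ≤
      ((W (Γ.flip e.1) * (W e.1)⁻¹) ^ (yh e - yt e)) z
    have h1 := tile e.1 e.2 z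
    rw [← ew e, ← eh e, zpow_natCast, zpow_natCast] at h1
    exact h1
  · change ∑ e : {d // d ∈ T}, (((ar e - al e : ℕ) : ℤ) + ((yh e - yt e : ℕ) : ℤ) -
      ((Nat.gcd (ar e - al e) (yh e - yt e) : ℕ) : ℤ)) = total Γ Y A T
    unfold total
    rw [← Finset.sum_coe_sort T]
    refine Finset.sum_congr rfl fun e _ => ?_
    rw [size, ← ew e, ← eh e, Int.gcd_natCast_natCast]
  · intro q1 q2 q3 d hd j hj hd1 hd2 z
    by_contra hne
    have hu : Up Γ Y j d := ⟨hd1, hd2⟩
    have hlt : W d z < W (Γ.flip d) z :=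
      lt_of_le_of_ne (wall d hd (hd1.trans_lt hd2) z) hne
    obtain ⟨e', a1, a2, a3, a4⟩ := exists_snk (Γ := Γ) Y A hT.Y_rot hT.A_rot j (fun d => W d z)
      (fun d => by simp only [W_rot]) (fun d hu ha => wall d ha.symm (hu.1.trans_lt hu.2) z)
      hu hd.symm hlt
    obtain ⟨e, b1, b2, b3, b4⟩ := exists_src (Γ := Γ) Y A hT.Y_rot hT.A_rot j (fun d => W d z)
      (fun d => by simp only [W_rot]) (fun d hu ha => wall d ha.symm (hu.1.trans_lt hu.2) z)
      hu hlt
    have hc : W (Γ.flip e) z < W e' z := b4.trans_lt (hlt.trans_le a4)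
    have inU : ∀ f : {d // d ∈ T}, Up Γ Y j f.1 → In (yt f) (yh f - yt f) j := by
      intro f hf
      obtain ⟨hf1, hf2⟩ := hf
      have h1 := e3 f
      have h2 := e4 f
      have h3 := l3 f
      constructor <;> omega
    rcases mem_of_up hT (by omega) (by omega) b1 b3 with rfl | he
    · rcases mem_of_up hT (by omega) (by omega) a1 a3 with rfl | he'
      · rw [hT.A_lo] at b2
        rw [hT.A_hi] at a2
        omega
      · have h1 : (al ⟨e', he'⟩ : ℤ) = A e' := e1 ⟨e', he'⟩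
        rw [hT.A_lo] at b2
        have h2 := q1 ⟨e', he'⟩ (show al ⟨e', he'⟩ = 0 by omega) z
        change W e' z = z at h2
        rw [W_L, h2] at hc
        exact lt_irrefl _ hc
    · rcases mem_of_up hT (by omega) (by omega) a1 a3 with rfl | he'
      · have h1 : (ar ⟨e, he⟩ : ℤ) = A (Γ.flip e) := e2 ⟨e, he⟩
        have h3 := l1 ⟨e, he⟩
        rw [hT.A_hi] at a2
        have h2 := q2 ⟨e, he⟩
          (show al ⟨e, he⟩ + (ar ⟨e, he⟩ - al ⟨e, he⟩) = k by omega) z
        change W (Γ.flip e) z = M z at h2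
        rw [W_R, h2] at hc
        exact lt_irrefl _ hc
      · have h1 : (ar ⟨e, he⟩ : ℤ) = A (Γ.flip e) := e2 ⟨e, he⟩
        have h3 := l1 ⟨e, he⟩
        have h4 : (al ⟨e', he'⟩ : ℤ) = A e' := e1 ⟨e', he'⟩
        have h2 := q3 ⟨e, he⟩ ⟨e', he'⟩ j (inU _ b1) (inU _ a1)
          (show al ⟨e, he⟩ + (ar ⟨e, he⟩ - al ⟨e, he⟩) = al ⟨e', he'⟩ by omega) z
        exact hc.ne h2

end

end Pool.Agent.Helper51.TW
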